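import Mathlib
import Pool.Agent.TH395.P5.Fin

set_option autoImplicit false

/-!
# Covering Petersen-minor-free graphs of pathwidth at most five by two cycles (MP_e6539c_co)

Every finite multigraph of pathwidth at most `5` without isthmuses and without a Petersen graph
minor is the union of two cycles.  There is no condition on the degrees, on the connectivity or on
the number of vertices.  The Petersen graph has pathwidth `5`, so this is the first width at which
the minor condition of the conjecture is needed.

Proof.  Let `G` be a counterexample which is minimal for contracting and deleting edges; it has no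
circuits of length less than five and no nontrivial edge cuts with three edges.  The vertices are
explored in the order of a path decomposition: the explored part `P` is a rooted graph, the roots
are its vertices with unexplored neighbours (at most five at each time).  A rooted graph is
reducible if some of its edges can be deleted and others contracted so that no bridge of `G` appears
and so that the boundary vectors of the resulting flows are boundary vectors of nowhere-zero
functions on `P`; it cannot occur in `G`.  Starting from the empty graph, exactly 214 rooted graphs
without Petersen minor are irreducible (none with 15 vertices), and none of them is closed; this is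
evaluated by the kernel.
-/

namespace Pool.Agent.Results.MP_e6539c_co.PathwidthFive

variable {V E : Type}

/-- The vertices `x` and `y` are joined by an edge different from `e`. -/
def AdjWithout (src dst : E → V) (e : E) (x y : V) : Prop :=
  ∃ e', e' ≠ e ∧ ((src e' = x ∧ dst e' = y) ∨ (src e' = y ∧ dst e' = x))

/-- The edge `e` is an isthmus: its ends are not joined by a walk that avoids `e`. -/
def IsIsthmus (src dst : E → V) (e : E) : Prop :=
  ¬ Relation.ReflTransGen (AdjWithout src dst e) (src e) (dst e)

/-- `C` is a cycle (a disjoint union of circuits): every vertex has even degree in `(V, C)`; a loop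
counts twice. -/
def IsCycle [DecidableEq V] (src dst : E → V) (C : Finset E) : Prop :=
  ∀ v : V, Even ((C.filter (fun e => src e = v)).card + (C.filter (fun e => dst e = v)).card)

/-- `X 0, X 1, ...` is a path decomposition of width at most `w`: every edge has both ends in one
of the sets, every vertex lies in an interval of the sets, and the sets have at most `w + 1`
elements. -/
structure IsPathDecomposition [DecidableEq V] (src dst : E → V) (w : ℕ) (X : ℕ → Finset V) :
    Prop where
  edge : ∀ e, ∃ i, src e ∈ X i ∧ dst e ∈ X i
  interval : ∀ i j k, i ≤ j → j ≤ k → X i ∩ X k ⊆ X j
  width : ∀ i, (X i).card ≤ w + 1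

/-- The vertices of the Petersen graph: the `2`-element subsets of a `5`-element set; two of them
are adjacent if they are disjoint. -/
def PetVertex : Type := {s : Finset (Fin 5) // s.card = 2}

/-- The vertices `x` and `y` lie in `B` and are joined by an edge. -/
def AdjIn (src dst : E → V) (B : Set V) (x y : V) : Prop :=
  x ∈ B ∧ y ∈ B ∧ ∃ e, (src e = x ∧ dst e = y) ∨ (src e = y ∧ dst e = x)

/-- The multigraph has a Petersen graph minor: there are nonempty disjoint vertex sets `B s`, one
for each vertex `s` of the Petersen graph, such that any two vertices of `B s` are joined by a walk
in `B s`, and such that an edge joins `B s` and `B t` if `s` and `t` are adjacent. -/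
def HasPetersenMinor (src dst : E → V) : Prop :=
  ∃ B : PetVertex → Set V, (∀ s, (B s).Nonempty) ∧
    (∀ s t, s ≠ t → Disjoint (B s) (B t)) ∧
    (∀ s, ∀ x ∈ B s, ∀ y ∈ B s, Relation.ReflTransGen (AdjIn src dst (B s)) x y) ∧
    ∀ s t : PetVertex, Disjoint s.1 t.1 →
      ∃ e, (src e ∈ B s ∧ dst e ∈ B t) ∨ (src e ∈ B t ∧ dst e ∈ B s)

theorem result :
    ∀ (V E : Type) [Fintype V] [DecidableEq V] [Fintype E] [DecidableEq E] (src dst : E → V)
      (X : ℕ → Finset V), IsPathDecomposition src dst 5 X →
      (∀ e, ¬ IsIsthmus src dst e) → ¬ HasPetersenMinor src dst →
      ∃ C₁ C₂ : Finset E, IsCycle src dst C₁ ∧ IsCycle src dst C₂ ∧ C₁ ∪ C₂ = Finset.univ := by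
  intro V E _ _ _ _ src dst X hX hb hp
  exact Pool.Agent.TH395.P5.res V E src dst X ⟨hX.edge, hX.interval, hX.width⟩ hb hp

end Pool.Agent.Results.MP_e6539c_co.PathwidthFive
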