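import Pool.Agent.TH362.TF.Main
import Pool.Agent.TH362.TF.Multi
import Pool.Agent.TH362.TF.Contr
import Pool.Agent.TH362.TF.Cyc

/-!
A finite multigraph with at most sixteen vertices of odd degree and without isthmuses is the union
of two cycles, or a component of it can be contracted to the Petersen graph.
-/

set_option autoImplicit false

namespace Pool.Agent.Results.MP_e6539c_co.SixteenOddVertices

open Pool.Agent.TH362.Multi

/-- Let `s t : E → V` be a finite multigraph without isthmuses in which at most sixteen vertices
have odd degree (the number of vertices of even degree is arbitrary, as are the degrees). Then the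
edge set is the union of two cycles, or some component can be contracted to the Petersen graph. In
particular the edge set is the union of two cycles if there is no Petersen minor. -/
theorem result (V E : Type) [Finite V] [Finite E] (s t : E → V)
    (hb : ∀ e, ¬ Isthmus s t e)
    (ho : {v | Odd (degree s t Set.univ v)}.ncard ≤ 16) :
    (∃ C₁ C₂ : Set E, IsCycle s t C₁ ∧ IsCycle s t C₂ ∧ C₁ ∪ C₂ = Set.univ) ∨
      ContractsToPetersen s t := by
  classical
  have := Fintype.ofFinite V
  have := Fintype.ofFinite E
  have h1 := TH362.TF.n1_of s t hb
  rcases TH362.TF.main16 s t Finset.univ h1 (by rw [TH362.TF.odd_card]; exact ho) with h | h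
  · exact Or.inl (TH362.TF.two_cycles s t h)
  · exact Or.inr (TH362.TF.contracts s t h1 h)

end Pool.Agent.Results.MP_e6539c_co.SixteenOddVertices
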