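import Pool.Agent.TH499.TF.Minor

set_option autoImplicit false

/-! # Tutte's conjecture on graphs without a Petersen minor: treewidth at most four

A finite graph, loops and parallel edges allowed, has vertex set `V` and edge set `E`; the ends of
the edge `e` are `src e` and `dst e`. -/

namespace Pool.Agent.Results.MP_e6539c_co.TreewidthFour

open Finset

/-- the simple graph in which two distinct vertices are adjacent if an edge in `F` joins them -/
def under {V E : Type} (src dst : E → V) (F : Set E) : SimpleGraph V where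
  Adj x y := x ≠ y ∧ ∃ e ∈ F, (src e = x ∧ dst e = y) ∨ (src e = y ∧ dst e = x)
  symm := ⟨fun _ _ h => ⟨h.1.symm, h.2.imp fun _ he => ⟨he.1, he.2.symm⟩⟩⟩
  loopless := ⟨fun _ h => h.1 rfl⟩

/-- the edge `e` is an isthmus: its ends are not connected by the other edges -/
def IsIsthmus {V E : Type} (src dst : E → V) (e : E) : Prop :=
  ¬ (under src dst {e' | e' ≠ e}).Reachable (src e) (dst e)

/-- the Petersen graph is a minor: there are disjoint connected sets of vertices, one for each
two-element subset of `{0, 1, 2, 3, 4}`, and the sets for disjoint subsets are adjacent -/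
def HasPetersenMinor {V E : Type} (src dst : E → V) : Prop :=
  ∃ B : {s : Finset (Fin 5) // s.card = 2} → Set V,
    (∀ i, ((under src dst Set.univ).induce (B i)).Connected) ∧
    (∀ i j, i ≠ j → Disjoint (B i) (B j)) ∧
    (∀ i j : {s : Finset (Fin 5) // s.card = 2}, Disjoint i.1 j.1 →
      ∃ x ∈ B i, ∃ y ∈ B j, (under src dst Set.univ).Adj x y)

/-- tree decomposition of the graph, with bags `bag i` for the nodes `i` of the tree `T` -/
def IsTreeDecomposition {V E ι : Type} (src dst : E → V) (T : SimpleGraph ι)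
    (bag : ι → Finset V) : Prop :=
  T.IsTree ∧ (∀ v, ∃ i, v ∈ bag i) ∧ (∀ e, ∃ i, src e ∈ bag i ∧ dst e ∈ bag i) ∧
    ∀ (i j : ι) (p : T.Walk i j), p.IsPath → ∀ k ∈ p.support, ∀ v, v ∈ bag i → v ∈ bag j →
      v ∈ bag k

/-- the treewidth is at most `k` -/
def TreewidthLE {V E : Type} (src dst : E → V) (k : ℕ) : Prop :=
  ∃ (ι : Type) (_ : Fintype ι) (T : SimpleGraph ι) (bag : ι → Finset V),
    IsTreeDecomposition src dst T bag ∧ ∀ i, (bag i).card ≤ k + 1

/-- the set of edges `C` is a cycle: all degrees are even, where a loop counts twice -/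
def IsCycle {V E : Type} [DecidableEq V] (src dst : E → V) (C : Finset E) : Prop :=
  ∀ v, Even (∑ e ∈ C, ((if src e = v then 1 else 0) + (if dst e = v then 1 else 0)))

/-- **Theorem.** A graph of treewidth at most four without an isthmus and without a Petersen minor
is the union of two cycles. -/
theorem result (V E : Type) [Fintype V] [DecidableEq V] [Fintype E] [DecidableEq E]
    (src dst : E → V) (hI : ∀ e, ¬ IsIsthmus src dst e) (hP : ¬ HasPetersenMinor src dst)
    (hT : TreewidthLE src dst 4) :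
    ∃ C₁ C₂ : Finset E, IsCycle src dst C₁ ∧ IsCycle src dst C₂ ∧ C₁ ∪ C₂ = univ := by
  classical
  -- no cut with one edge
  have hcut : ∀ Y, (TH499.TF.dlt src dst Y).card ≠ 1 := by
    intro Y hY
    obtain ⟨e, he⟩ := card_eq_one.mp hY
    apply hI e
    intro hr
    have hstay : ∀ x y, (under src dst {e' | e' ≠ e}).Reachable x y → (x ∈ Y ↔ y ∈ Y) := by
      rintro x y ⟨p⟩
      induction p with
      | nil => exact Iff.rfl
      | cons hadj _ ih =>
        refine Iff.trans ?_ ih
        obtain ⟨_, e', he', h1⟩ := hadj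
        have hn : e' ∉ TH499.TF.dlt src dst Y := by
          rw [he, mem_singleton]; exact he'
        rw [TH499.TF.mem_dlt, not_not] at hn
        rcases h1 with ⟨h2, h3⟩ | ⟨h2, h3⟩
        · rw [h2, h3] at hn; exact hn
        · rw [h2, h3] at hn; exact hn.symm
    have hm : e ∈ TH499.TF.dlt src dst Y := by rw [he]; exact mem_singleton_self _
    rw [TH499.TF.mem_dlt] at hm
    exact hm (hstay _ _ hr)
  -- no Petersen minor in terms of cuts
  have hPM : ¬ TH499.TF.PM src dst := by
    rintro ⟨S, h1, h2, h3⟩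
    apply hP
    have hadj : ∀ {e x y}, x ≠ y → TH499.TF.Joins src dst e x y →
        (under src dst Set.univ).Adj x y := fun h hj => ⟨h, _, Set.mem_univ _, hj⟩
    have hne : ∀ i, (S i).Nonempty := by
      intro i
      obtain ⟨j, hj⟩ : ∃ j : {s : Finset (Fin 5) // s.card = 2}, Disjoint i.1 j.1 := by
        revert i; decide
      obtain ⟨e, x, y, hx, _⟩ := h3 i j hj
      exact ⟨x, hx⟩
    refine ⟨fun i => (S i : Set V), ?_, ?_, ?_⟩
    · intro i
      obtain ⟨x0, hx0⟩ := hne i
      rw [SimpleGraph.connected_iff_exists_forall_reachable]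
      refine ⟨⟨x0, hx0⟩, ?_⟩
      by_contra hcon
      push Not at hcon
      obtain ⟨⟨y0, hy0⟩, hy1⟩ := hcon
      obtain ⟨e, a, b, ha, hb, hbA, hj⟩ := h1 i
        ((S i).filter (fun x => ∃ h : x ∈ (S i : Set V),
          ((under src dst Set.univ).induce (S i : Set V)).Reachable ⟨x0, hx0⟩ ⟨x, h⟩))
        (filter_subset _ _) ⟨x0, mem_filter.mpr ⟨hx0, hx0, SimpleGraph.Reachable.refl _⟩⟩
        (fun h => by
          have h4 : y0 ∈ (S i).filter (fun x => ∃ h : x ∈ (S i : Set V),
              ((under src dst Set.univ).induce (S i : Set V)).Reachable ⟨x0, hx0⟩ ⟨x, h⟩) := by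
            rw [h]; exact hy0
          obtain ⟨_, _, h5⟩ := mem_filter.mp h4
          exact hy1 h5)
      apply hbA
      rw [mem_filter] at ha ⊢
      obtain ⟨ha1, ha2, ha3⟩ := ha
      refine ⟨hb, hb, ha3.trans ?_⟩
      apply SimpleGraph.Adj.reachable
      have hab : a ≠ b := fun h => hbA (mem_filter.mpr ⟨hb, h ▸ ⟨ha2, ha3⟩⟩)
      exact hadj hab hj
    · intro i j hij
      exact disjoint_coe.mpr (h2 i j hij)
    · intro i j hij
      obtain ⟨e, x, y, hx, hy, hj⟩ := h3 i j hij
      refine ⟨x, hx, y, hy, hadj ?_ hj⟩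
      rintro rfl
      exact disjoint_left.mp (h2 i j (TH499.TF.pr_ne i j hij)) hx hy
  -- tree decomposition
  obtain ⟨ι, _, T, bag, ⟨t1, _, t2, t3⟩, t4⟩ := hT
  have hTD : TH499.TF.HasTD 5 src dst := TH499.TF.HasTD.of_tree t1 t3 t2 t4
  obtain ⟨f, hf, hd⟩ := TH499.TF.cls_nz _ src dst rfl ⟨hTD, hPM⟩ hcut
  have h01 : ∀ a : ZMod 2, a ≠ 0 → a = 1 := by decide
  refine ⟨univ.filter (fun e => (f e).1 ≠ 0), univ.filter (fun e => (f e).2 ≠ 0), ?_, ?_, ?_⟩
  · intro v
    rw [← ZMod.natCast_eq_zero_iff_even]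
    have h := congrArg Prod.fst (hd v)
    unfold TH499.TF.dv TH499.TF.jn at h
    rw [Prod.fst_sum] at h
    refine Eq.trans ?_ h
    rw [sum_filter]
    push_cast
    refine sum_congr rfl fun e _ => ?_
    by_cases h1 : (f e).1 = 0
    · rw [if_neg (not_not.mpr h1)]
      split_ifs <;> simp [h1]
    · rw [if_pos h1]
      split_ifs <;> simp [h01 _ h1]
  · intro v
    rw [← ZMod.natCast_eq_zero_iff_even]
    have h := congrArg Prod.snd (hd v)
    unfold TH499.TF.dv TH499.TF.jn at h
    rw [Prod.snd_sum] at h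
    refine Eq.trans ?_ h
    rw [sum_filter]
    push_cast
    refine sum_congr rfl fun e _ => ?_
    by_cases h1 : (f e).2 = 0
    · rw [if_neg (not_not.mpr h1)]
      split_ifs <;> simp [h1]
    · rw [if_pos h1]
      split_ifs <;> simp [h01 _ h1]
  · ext e
    simp only [mem_union, mem_filter, mem_univ, true_and, iff_true]
    by_contra hcon
    push Not at hcon
    exact hf e (Prod.ext hcon.1 hcon.2)

end Pool.Agent.Results.MP_e6539c_co.TreewidthFour
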