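import Pool.Agent.TH362.TF.Main
import Pool.Agent.TH362.TF.Multi
import Pool.Agent.TH362.TF.Contr
import Pool.Agent.TH362.TF.Cyc
import Pool.Agent.TH362.FO.Alt

/-!
A finite multigraph without isthmuses that has no thirteen disjoint vertex sets with different
boundaries of size three, in particular one with at most twelve edge cuts of size three, is the
union of two cycles, or a component of it can be contracted to the Petersen graph.
-/

set_option autoImplicit false

namespace Pool.Agent.Results.MP_e6539c_co.TwelveThreeCuts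

open Pool.Agent.TH362.Multi

/-- Let `s t : E → V` be a finite multigraph without isthmuses. The boundary of a vertex set `X` is
the set of the edges with exactly one end in `X`. Suppose that there are no thirteen pairwise
disjoint vertex sets with pairwise different boundaries of size three; for example, let at most
twelve sets of three edges be boundaries. Then the edge set is the union of two cycles, or some
component can be contracted to the Petersen graph. In particular the edge set is the union of two
cycles if there is no Petersen minor. -/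
theorem result (V E : Type) [Finite V] [Finite E] (s t : E → V)
    (hb : ∀ e, ¬ Isthmus s t e)
    (hc : ∀ X : Fin 13 → Set V, (∀ i j, i ≠ j → Disjoint (X i) (X j)) →
      (∀ i j, i ≠ j → {e | ¬ (s e ∈ X i ↔ t e ∈ X i)} ≠ {e | ¬ (s e ∈ X j ↔ t e ∈ X j)}) →
      ∃ i, {e | ¬ (s e ∈ X i ↔ t e ∈ X i)}.ncard ≠ 3) :
    (∃ C₁ C₂ : Set E, IsCycle s t C₁ ∧ IsCycle s t C₂ ∧ C₁ ∪ C₂ = Set.univ) ∨
      ContractsToPetersen s t := by
  classical
  have := Fintype.ofFinite V
  have := Fintype.ofFinite E
  have h1 := TH362.TF.n1_of s t hb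
  have key : ∀ x : V → Bool, (↑(TH362.TF.cut s t Finset.univ x) : Set E) =
      {e | ¬ (s e ∈ {v | x v = true} ↔ t e ∈ {v | x v = true})} := by
    intro x
    ext e
    simp only [TH362.TF.cut, Finset.coe_filter, Finset.mem_univ, true_and, Set.mem_ofPred_eq]
    cases x (s e) <;> cases x (t e) <;> simp
  have h3 : ¬ TH362.FO.Fam s t Finset.univ 13 := by
    rintro ⟨X, k1, k2, k3⟩
    obtain ⟨i, hi⟩ := hc (fun i => {v | X i v = true})
      (fun i j hij => Set.disjoint_left.2 fun v hv hv' => k1 i j hij v ⟨hv, hv'⟩)
      (fun i j hij heq => k2 i j hij (by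
        apply Finset.coe_injective
        rw [key, key]
        exact heq))
    apply hi
    rw [← key, Set.ncard_coe_finset]
    exact k3 i
  rcases TH362.FO.alt s t Finset.univ h1 (Or.inr h3) with h | h
  · exact Or.inl (TH362.TF.two_cycles s t h)
  · exact Or.inr (TH362.TF.contracts s t h1 h)

/-- The case of at most twelve edge cuts of size three. -/
theorem few_cuts (V E : Type) [Finite V] [Finite E] (s t : E → V)
    (hb : ∀ e, ¬ Isthmus s t e)
    (hc : {C : Set E | C.ncard = 3 ∧ ∃ X : Set V, C = {e | ¬ (s e ∈ X ↔ t e ∈ X)}}.ncard ≤ 12) :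
    (∃ C₁ C₂ : Set E, IsCycle s t C₁ ∧ IsCycle s t C₂ ∧ C₁ ∪ C₂ = Set.univ) ∨
      ContractsToPetersen s t := by
  refine result V E s t hb fun X _ hX => ?_
  by_contra hcon
  have hcon' : ∀ i, {e | ¬ (s e ∈ X i ↔ t e ∈ X i)}.ncard = 3 := fun i => by
    by_contra h
    exact hcon ⟨i, h⟩
  have hinj : Function.Injective (fun i => {e | ¬ (s e ∈ X i ↔ t e ∈ X i)}) := fun i j hij => by
    by_contra hne
    exact hX i j hne hij
  have h13 : (Set.range (fun i => {e | ¬ (s e ∈ X i ↔ t e ∈ X i)})).ncard = 13 := by
    rw [← Set.image_univ, Set.ncard_image_of_injective _ hinj, Set.ncard_univ,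
      Nat.card_eq_fintype_card, Fintype.card_fin]
  have hle := Set.ncard_le_ncard (s := Set.range (fun i => {e | ¬ (s e ∈ X i ↔ t e ∈ X i)}))
    (t := {C : Set E | C.ncard = 3 ∧ ∃ X : Set V, C = {e | ¬ (s e ∈ X ↔ t e ∈ X)}})
    (by rintro _ ⟨i, rfl⟩; exact ⟨hcon' i, X i, rfl⟩) (Set.toFinite _)
  omega

end Pool.Agent.Results.MP_e6539c_co.TwelveThreeCuts
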